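import Mathlib
import Pool.Agent.Helper950.RatApx

set_option autoImplicit false

namespace Pool.Agent.Results.MP_62ba83_co.ThreeCollinear

/-- Every five-point set in the plane that has three points on a line or four points on a circle
is rationally approximable. -/
theorem result :
    ∀ p : Fin 5 → EuclideanSpace ℝ (Fin 2),
      ((∃ s : Finset (Fin 5), s.card = 3 ∧ Collinear ℝ (p '' s)) ∨
        (∃ s : Finset (Fin 5), s.card = 4 ∧ EuclideanGeometry.Cospherical (p '' s))) →
      ∀ ε : ℝ, 0 < ε →
        ∃ q : Fin 5 → EuclideanSpace ℝ (Fin 2),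
          (∀ i, dist (p i) (q i) < ε) ∧
          ∀ i j, ∃ r : ℚ, dist (q i) (q j) = (r : ℝ) :=
  fun p h ε hε => Pool.Agent.Helper950.RatApx.five p h ε hε

end Pool.Agent.Results.MP_62ba83_co.ThreeCollinear
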